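import Mathlib

/-!
# MP_dd3b7d_gt: a space which is not co-consonant although its Smyth powerspace is co-consonant
-/

set_option autoImplicit false

open Set Topology TopologicalSpace

universe u

namespace Pool.Agent.Results.MP_dd3b7d_gt.CofiniteCounterexample

/-- Scott open subsets of a poset -/
def ScottOpen {P : Type u} [PartialOrder P] (𝒰 : Set P) : Prop :=
  (∀ a b, a ∈ 𝒰 → a ≤ b → b ∈ 𝒰) ∧
  ∀ D : Set P, D.Nonempty → DirectedOn (· ≤ ·) D → ∀ s, IsLUB D s → s ∈ 𝒰 → (D ∩ 𝒰).Nonempty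

/-- the upper topology of a poset: generated by the complements of the principal ideals -/
def upperTop (P : Type u) [PartialOrder P] : TopologicalSpace P :=
  generateFrom {S | ∃ x : P, S = (Iic x)ᶜ}

/-- `X` is co-consonant if the Scott topology and the upper topology of the lattice of its open sets
have the same open sets -/
def CoConsonant (X : Type u) [TopologicalSpace X] : Prop :=
  ∀ 𝒰 : Set (Opens X), IsOpen[upperTop (Opens X)] 𝒰 ↔ ScottOpen 𝒰

/-- saturated sets: intersections of open sets -/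
def Saturated {X : Type u} [TopologicalSpace X] (K : Set X) : Prop :=
  K = ⋂₀ {U | IsOpen U ∧ K ⊆ U}

/-- the points of the Smyth powerspace: nonempty compact saturated sets -/
def PS (X : Type u) [TopologicalSpace X] : Type u :=
  {K : Set X // K.Nonempty ∧ IsCompact K ∧ Saturated K}

/-- the basic open sets of the upper Vietoris topology -/
def box {X : Type u} [TopologicalSpace X] (U : Set X) : Set (PS X) := {K | K.1 ⊆ U}

/-- the upper Vietoris topology: the topology with base the sets `box U`, `U` open -/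
instance (X : Type u) [TopologicalSpace X] : TopologicalSpace (PS X) where
  IsOpen W := ∀ K ∈ W, ∃ U : Set X, IsOpen U ∧ K ∈ box U ∧ box U ⊆ W
  isOpen_univ := fun _ _ => ⟨univ, isOpen_univ, subset_univ _, subset_univ _⟩
  isOpen_inter := by
    intro W W' h h' K hK
    obtain ⟨U, hU, hKU, hUW⟩ := h K hK.1
    obtain ⟨U', hU', hKU', hUW'⟩ := h' K hK.2
    exact ⟨U ∩ U', hU.inter hU', subset_inter hKU hKU', fun L hL =>
      ⟨hUW (hL.trans inter_subset_left), hUW' (hL.trans inter_subset_right)⟩⟩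
  isOpen_sUnion := by
    rintro S hS K ⟨W, hW, hK⟩
    obtain ⟨U, hU, hKU, hUW⟩ := hS W hW K hK
    exact ⟨U, hU, hKU, hUW.trans (subset_sUnion_of_mem hW)⟩

section general

variable {X : Type u} [TopologicalSpace X]

/-- the open sets that contain a given point form an open set of the upper topology -/
theorem isOpen_mem (x : X) : IsOpen[upperTop (Opens X)] {V : Opens X | x ∈ V} := by
  apply isOpen_generateFrom_of_mem
  refine ⟨⟨(closure {x})ᶜ, isClosed_closure.isOpen_compl⟩, ?_⟩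
  ext V
  constructor
  · intro hx hV
    exact (mem_Iic.mp hV : V ≤ _) hx (subset_closure rfl)
  · intro hV
    by_contra hx
    refine hV (mem_Iic.mpr fun y hy hyc => ?_)
    obtain ⟨z, hz, hzx⟩ := mem_closure_iff.mp hyc V V.isOpen hy
    rw [mem_singleton_iff] at hzx
    subst hzx
    exact hx hz

theorem scottOpen_of_upper {𝒰 : Set (Opens X)} (h : IsOpen[upperTop (Opens X)] 𝒰) : ScottOpen 𝒰 := by
  induction h with
  | basic S hS =>
    obtain ⟨x, rfl⟩ := hS
    refine ⟨fun a b ha hab hb => ha (mem_Iic.mpr (hab.trans (mem_Iic.mp hb))), fun D hne hD s hs hsx => ?_⟩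
    by_contra hcon
    refine hsx (mem_Iic.mpr (hs.2 fun d hd => ?_))
    by_contra hdx
    exact hcon ⟨d, hd, fun h => hdx (mem_Iic.mp h)⟩
  | univ => exact ⟨fun _ _ _ _ => mem_univ _, fun D hne _ _ _ _ => by simpa using hne⟩
  | inter S T _ _ h1 h2 =>
    refine ⟨fun a b ha hab => ⟨h1.1 a b ha.1 hab, h2.1 a b ha.2 hab⟩, fun D hne hD s hs hsx => ?_⟩
    obtain ⟨d, hd, hdS⟩ := h1.2 D hne hD s hs hsx.1
    obtain ⟨e, he, heT⟩ := h2.2 D hne hD s hs hsx.2
    obtain ⟨f, hf, hdf, hef⟩ := hD d hd e he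
    exact ⟨f, hf, h1.1 _ _ hdS hdf, h2.1 _ _ heT hef⟩
  | sUnion 𝒮 _ h =>
    refine ⟨fun a b ⟨S, hS, ha⟩ hab => ⟨S, hS, (h S hS).1 a b ha hab⟩, fun D hne hD s hs ⟨S, hS, hsS⟩ => ?_⟩
    obtain ⟨d, hd, hdS⟩ := (h S hS).2 D hne hD s hs hsS
    exact ⟨d, hd, S, hS, hdS⟩

/-- a criterion for co-consonance: every member `W` of a Scott open family contains a finite set `F` of
points such that every open superset of `F` belongs to the family -/
theorem coConsonant_of (h : ∀ 𝒰 : Set (Opens X), ScottOpen 𝒰 → ∀ W ∈ 𝒰, ∃ F : Set X, F.Finite ∧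
    F ⊆ (W : Set X) ∧ ∀ V : Opens X, F ⊆ (V : Set X) → V ∈ 𝒰) : CoConsonant X := by
  intro 𝒰
  refine ⟨scottOpen_of_upper, fun h𝒰 => ?_⟩
  letI : TopologicalSpace (Opens X) := upperTop (Opens X)
  change IsOpen 𝒰
  rw [isOpen_iff_forall_mem_open]
  intro W hW
  obtain ⟨F, hF, hFW, hFU⟩ := h 𝒰 h𝒰 W hW
  refine ⟨⋂ x ∈ F, {V : Opens X | x ∈ V}, ?_, hF.isOpen_biInter fun x _ => isOpen_mem x, ?_⟩
  · intro V hV
    refine hFU V fun x hx => ?_
    exact mem_iInter₂.mp hV x hx
  · exact mem_iInter₂.mpr fun x hx => hFW hx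

/-- The Smyth powerspace of a Noetherian `T₁` space is co-consonant. -/
theorem coConsonant_PS [NoetherianSpace X] [T1Space X] : CoConsonant (PS X) := by
  have hpt : ∀ U : Set X, U.Nonempty → ∃ p : PS X, p.1 = U := by
    intro U hU
    refine ⟨⟨U, hU, NoetherianSpace.isCompact U, ?_⟩, rfl⟩
    apply Subset.antisymm
    · exact fun x hx => mem_sInter.mpr fun V hV => hV.2 hx
    · intro x hx
      by_contra hxU
      have := mem_sInter.mp hx ({x}ᶜ) ⟨isOpen_compl_singleton, fun y hy hyx => hxU (hyx ▸ hy)⟩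
      exact this rfl
  have hup : ∀ (V : Opens (PS X)) (p : PS X), p ∈ V → box p.1 ⊆ (V : Set (PS X)) := by
    intro V p hp K hK
    obtain ⟨U, hU, hpU, hUV⟩ := V.isOpen p hp
    exact hUV ((show K.1 ⊆ p.1 from hK).trans hpU)
  refine coConsonant_of fun 𝒰 h𝒰 W hW => ?_
  -- the directed family
  let ι : Type u := {F : Set (PS X) // F.Finite ∧ F ⊆ (W : Set (PS X)) ∧ ∀ p ∈ F, IsOpen p.1}
  let O : ι → Opens (PS X) := fun F => ⟨⋃ p ∈ F.1, box p.1, by
    intro K hK
    obtain ⟨p, hp, hKp⟩ := mem_iUnion₂.mp hK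
    exact ⟨p.1, F.2.2.2 p hp, hKp, fun L hL => mem_iUnion₂.mpr ⟨p, hp, hL⟩⟩⟩
  have hdir : DirectedOn (· ≤ ·) (range O) := by
    rintro _ ⟨F, rfl⟩ _ ⟨G, rfl⟩
    refine ⟨O ⟨F.1 ∪ G.1, F.2.1.union G.2.1, union_subset F.2.2.1 G.2.2.1, ?_⟩, ⟨_, rfl⟩, ?_, ?_⟩
    · rintro p (hp | hp)
      · exact F.2.2.2 p hp
      · exact G.2.2.2 p hp
    · intro K hK
      obtain ⟨p, hp, hKp⟩ := mem_iUnion₂.mp hK
      exact mem_iUnion₂.mpr ⟨p, Or.inl hp, hKp⟩
    · intro K hK
      obtain ⟨p, hp, hKp⟩ := mem_iUnion₂.mp hK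
      exact mem_iUnion₂.mpr ⟨p, Or.inr hp, hKp⟩
  have hlub : IsLUB (range O) W := by
    constructor
    · rintro _ ⟨F, rfl⟩ K hK
      obtain ⟨p, hp, hKp⟩ := mem_iUnion₂.mp hK
      exact hup W p (F.2.2.1 hp) hKp
    · intro V hV K hK
      obtain ⟨U, hU, hKU, hUW⟩ := W.isOpen K hK
      obtain ⟨p, hp⟩ := hpt U (K.2.1.mono hKU)
      have hpW : p ∈ W := hUW (show p.1 ⊆ U from hp.le)
      have h1 := hV ⟨(⟨{p}, finite_singleton p, by simpa using hpW, by
        intro q hq; rw [mem_singleton_iff.mp hq, hp]; exact hU⟩ : ι), rfl⟩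
      refine h1 (mem_iUnion₂.mpr ⟨p, rfl, ?_⟩)
      change K.1 ⊆ p.1
      rw [hp]
      exact hKU
  have hne : (range O).Nonempty := ⟨_, ⟨(⟨∅, finite_empty, empty_subset _, by simp⟩ : ι), rfl⟩⟩
  obtain ⟨_, ⟨F, rfl⟩, hFU⟩ := h𝒰.2 _ hne hdir W hlub hW
  refine ⟨F.1, F.2.1, F.2.2.1, fun V hFV => h𝒰.1 _ _ hFU ?_⟩
  intro K hK
  obtain ⟨p, hp, hKp⟩ := mem_iUnion₂.mp hK
  exact hup V p (hFV hp) hKp

/-- An infinite compact `T₁` space is not co-consonant. -/
theorem not_coConsonant [CompactSpace X] [T1Space X] [Infinite X] : ¬ CoConsonant X := by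
  intro h
  have h1 : ScottOpen ({⊤} : Set (Opens X)) := by
    refine ⟨fun a b ha hab => ?_, fun D hne hD s hs hsT => ?_⟩
    · rw [mem_singleton_iff] at ha ⊢
      subst ha
      exact top_le_iff.mp hab
    · rw [mem_singleton_iff] at hsT
      subst hsT
      have hcov : (univ : Set X) ⊆ ⋃ d : D, (d.1 : Set X) := by
        have h2 : sSup D = ⊤ := hs.sSup_eq
        intro x _
        have hx : x ∈ sSup D := by rw [h2]; trivial
        rw [Opens.mem_sSup] at hx
        obtain ⟨d, hd, hxd⟩ := hx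
        exact mem_iUnion.mpr ⟨⟨d, hd⟩, hxd⟩
      haveI : Nonempty D := hne.to_subtype
      obtain ⟨d, hd⟩ := isCompact_univ.elim_directed_cover (fun d : D => (d.1 : Set X)) (fun d => d.1.isOpen) hcov (by
        rintro ⟨a, ha⟩ ⟨b, hb⟩
        obtain ⟨c, hc, hac, hbc⟩ := hD a ha b hb
        exact ⟨⟨c, hc⟩, hac, hbc⟩)
      refine ⟨d.1, d.2, ?_⟩
      rw [mem_singleton_iff]
      exact Opens.ext (univ_subset_iff.mp hd)
  have h2 := (h {⊤}).mpr h1
  -- basic neighbourhoods of the top element contain proper open sets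
  have key : ∀ 𝒱 : Set (Opens X), IsOpen[upperTop (Opens X)] 𝒱 → ⊤ ∈ 𝒱 →
      ∃ F : Set X, F.Finite ∧ ∀ V : Opens X, F ⊆ (V : Set X) → V ∈ 𝒱 := by
    intro 𝒱 h𝒱
    induction h𝒱 with
    | basic S hS =>
      obtain ⟨U, rfl⟩ := hS
      intro hT
      have : ∃ x, x ∉ U := by
        by_contra hcon
        push Not at hcon
        exact hT (mem_Iic.mpr fun x _ => hcon x)
      obtain ⟨x, hx⟩ := this
      refine ⟨{x}, finite_singleton x, fun V hV hVU => hx ?_⟩
      exact (mem_Iic.mp hVU : V ≤ U) (hV rfl)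
    | univ => exact fun _ => ⟨∅, finite_empty, fun _ _ => mem_univ _⟩
    | inter S T _ _ h1 h2 =>
      intro hT
      obtain ⟨F, hF, hF'⟩ := h1 hT.1
      obtain ⟨G, hG, hG'⟩ := h2 hT.2
      exact ⟨F ∪ G, hF.union hG, fun V hV => ⟨hF' V (subset_union_left.trans hV), hG' V (subset_union_right.trans hV)⟩⟩
    | sUnion 𝒮 _ h =>
      rintro ⟨S, hS, hT⟩
      obtain ⟨F, hF, hF'⟩ := h S hS hT
      exact ⟨F, hF, fun V hV => ⟨S, hS, hF' V hV⟩⟩
  obtain ⟨F, hF, hF'⟩ := key _ h2 rfl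
  obtain ⟨x, hx⟩ := hF.exists_notMem
  have h3 := hF' ⟨{x}ᶜ, isOpen_compl_singleton⟩ (fun y hy hyx => hx (by rw [mem_singleton_iff.mp hyx] at hy; exact hy))
  rw [mem_singleton_iff] at h3
  have h4 : x ∈ (⟨{x}ᶜ, isOpen_compl_singleton⟩ : Opens X) := by rw [h3]; trivial
  exact h4 rfl

end general

/-- **The set of natural numbers with the cofinite topology is a `T₀` space which is not co-consonant,
although its Smyth powerspace is co-consonant.** -/
theorem result : T0Space (CofiniteTopology ℕ) ∧ CoConsonant (PS (CofiniteTopology ℕ)) ∧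
    ¬ CoConsonant (CofiniteTopology ℕ) := by
  haveI : Infinite (CofiniteTopology ℕ) := Infinite.of_injective _ CofiniteTopology.of.injective
  exact ⟨inferInstance, coConsonant_PS, not_coConsonant⟩

end Pool.Agent.Results.MP_dd3b7d_gt.CofiniteCounterexample
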